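import Pool.Agent.H12R3.VR.Stmts

set_option autoImplicit false

open Filter Topology Asymptotics

namespace H12VR.H275

open H12VR

theorem taskTan : TaskTan := by
  intro f I X N e hf hN he he0 hX x hx
  have hd := (hf x hx).hasDerivAt
  set M : ℕ → Fin 6 → ℝ := fun n => (e n)⁻¹ • (N n - id6) with hM
  have hNi : ∀ n i, N n i = id6 i + e n * M n i := by
    intro n i
    have h := (he n).ne'
    simp only [hM, Pi.smul_apply, Pi.sub_apply, smul_eq_mul]
    rw [mul_inv_cancel_left₀ h]
    ring
  have hMi : ∀ i, Tendsto (fun n => M n i) atTop (𝓝 (X i)) := fun i => (tendsto_pi_nhds.1 hX) i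
  have i0 : id6 0 = 1 := rfl
  have i1 : id6 1 = 0 := rfl
  have i2 : id6 2 = 0 := rfl
  have i3 : id6 3 = 0 := rfl
  have i4 : id6 4 = 1 := rfl
  have i5 : id6 5 = 0 := rfl
  have hax : ∀ n, ax (N n) x (f x) = x + e n * (fd (M n) (x, f x)).1 := by
    intro n
    simp only [ax, fd, hNi n 0, hNi n 1, hNi n 2, i0, i1, i2]
    ring
  have hay : ∀ n, ay (N n) x (f x) = f x + e n * (fd (M n) (x, f x)).2 := by
    intro n
    simp only [ay, fd, hNi n 3, hNi n 4, hNi n 5, i3, i4, i5]
    ring
  have ha : Tendsto (fun n => (fd (M n) (x, f x)).1) atTop (𝓝 (fd X (x, f x)).1) := by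
    simp only [fd]
    exact ((((hMi 0).mul_const x).add ((hMi 1).mul_const (f x))).add (hMi 2))
  have hb : Tendsto (fun n => (fd (M n) (x, f x)).2) atTop (𝓝 (fd X (x, f x)).2) := by
    simp only [fd]
    exact ((((hMi 3).mul_const x).add ((hMi 4).mul_const (f x))).add (hMi 5))
  have hy : Tendsto (fun n => x + e n * (fd (M n) (x, f x)).1) atTop (𝓝 x) := by
    have h := (tendsto_const_nhds (x := x)).add (he0.mul ha)
    simpa using h
  have hO : (fun n => x + e n * (fd (M n) (x, f x)).1 - x) =O[atTop] e := by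
    have h1 : (fun n => (fd (M n) (x, f x)).1) =O[atTop] (fun _ => (1 : ℝ)) := ha.isBigO_one ℝ
    have h2 := (isBigO_refl e atTop).mul h1
    simpa using h2
  have hlo := (hasDerivAt_iff_isLittleO.1 hd).comp_tendsto hy
  have hlo2 := (hlo.trans_isBigO hO).tendsto_div_nhds_zero
  have heq : ∀ n, ((fun y => f y - f x - (y - x) • deriv f x) ∘
      fun n => x + e n * (fd (M n) (x, f x)).1) n / e n =
      (fd (M n) (x, f x)).2 - deriv f x * (fd (M n) (x, f x)).1 := by
    intro n
    have h := (he n).ne'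
    have h1 : f (x + e n * (fd (M n) (x, f x)).1) = f x + e n * (fd (M n) (x, f x)).2 := by
      rw [← hax n, ← hay n]
      exact hN n x hx
    simp only [Function.comp, h1, smul_eq_mul]
    field_simp
    ring
  rw [tendsto_congr heq] at hlo2
  have hlim := hb.sub (ha.const_mul (deriv f x))
  have := tendsto_nhds_unique hlim hlo2
  linarith

end H12VR.H275
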